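import Mathlib
import Pool.Agent.H6.AndreDefs
import Pool.Agent.H6.AndreProof

set_option autoImplicit false

namespace Pool.Agent.Results.MP_1f99fc_al.Coarsest

open Pool.Agent.H6.Andre

/-- The supercharacter theory `T` of `UT n F` contains all single-box supercharacters as
irreducible characters. -/
def ContainsBoxes {n : ℕ} {F : Type} [Field F] (θ : AddChar F ℂ)
    (T : SupercharacterTheory (UT n F)) : Prop :=
  ∀ i j : Fin n, i < j → ∀ a : F, a ≠ 0 → ∃ χ : UT n F → ℂ, {χ} ∈ T.X ∧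
    ∃ c : ℝ, 0 < c ∧ ∀ g, χ g = c * superchar θ (box i j a) g

/-- Every supercharacter theory of `U_n(F_q)` containing all single-box characters refines
Andre's theory; if it is also coarser than Andre's theory, the two have the same superclasses. -/
theorem result : ∀ (n : ℕ) (F : Type) [Field F] [Finite F] (θ : AddChar F ℂ), (∃ x, θ x ≠ 1) →
    ∀ T : SupercharacterTheory (UT n F), ContainsBoxes θ T →
      (∀ C ∈ T.K, ∀ g ∈ C, C ⊆ andreClass g) ∧
      ((∀ g : UT n F, ∃ C ∈ T.K, andreClass g ⊆ C) → T.K = Set.range andreClass) := by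
  intro n F _ _ θ hθ T hT
  have h1 : ∀ C ∈ T.K, ∀ g ∈ C, C ⊆ andreClass g := by
    intro C hC g hg h hh
    apply main hθ
    intro i j hij a ha
    obtain ⟨χ, hχ, c, hc, hχc⟩ := hT i j hij a ha
    have h2 := T.const {χ} hχ C hC g hg h hh
    rw [finsum_mem_singleton, finsum_mem_singleton] at h2
    have hc' : (c : ℂ) ≠ 0 := by exact_mod_cast hc.ne'
    have h3 : χ 1 ≠ 0 := by
      rw [hχc]
      exact mul_ne_zero hc' (superchar_one_ne i j a)
    have h4 := mul_left_cancel₀ h3 h2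
    rw [hχc, hχc] at h4
    exact mul_left_cancel₀ hc' h4
  refine ⟨h1, fun h2 => ?_⟩
  have hself : ∀ g : UT n F, g ∈ andreClass g := by
    intro g
    refine ⟨1, 1, ?_⟩
    show mat g - 1 = (1 : Matrix (Fin n) (Fin n) F) * (mat g - 1) * 1
    rw [one_mul, mul_one]
  have h3 : ∀ C ∈ T.K, ∀ g ∈ C, C = andreClass g := by
    intro C hC g hg
    apply subset_antisymm (h1 C hC g hg)
    obtain ⟨C', hC', hsub⟩ := h2 g
    have : C' = C := (T.K_unique g).unique ⟨hC', hsub (hself g)⟩ ⟨hC, hg⟩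
    rw [← this]
    exact hsub
  ext C
  constructor
  · intro hC
    obtain ⟨g, hg⟩ := T.K_nonempty C hC
    exact ⟨g, (h3 C hC g hg).symm⟩
  · rintro ⟨g, rfl⟩
    obtain ⟨C, ⟨hC, hg⟩, _⟩ := T.K_unique g
    rw [← h3 C hC g hg]
    exact hC

end Pool.Agent.Results.MP_1f99fc_al.Coarsest
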